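import Pool.Agent.Helper52.NF.St3
import Pool.Agent.Helper16.OddPack.Potential

set_option autoImplicit false

/-! Project NF, module NCY: an even edge set with negative product contains a negative cycle. -/

namespace Pool.Agent.Helper81.NF

open Pool.Agent.Helper52.NF Finset
open Classical

theorem hNCY : StNCY := by
  intro V _ G σ H hH hev hsum
  by_contra hcon
  let H' : SimpleGraph V :=
    { Adj := fun u v => G.Adj u v ∧ s(u, v) ∈ H
      symm := ⟨fun u v h => ⟨h.1.symm, by rw [Sym2.eq_swap]; exact h.2⟩⟩
      loopless := ⟨fun u h => h.1.ne rfl⟩ }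
  have hle : H' ≤ G := fun u v h => h.1
  have hedge : ∀ {a b : V} (c : H'.Walk a b), ∀ e ∈ c.edges, e ∈ H := by
    intro a b c e he
    have h1 := c.edges_subset_edgeSet he
    induction e with
    | h x y =>
      rw [SimpleGraph.mem_edgeSet] at h1
      exact h1.2
  obtain ⟨ψ, hψ⟩ := Pool.Agent.Helper16.OddPack.exists_potential σ H' (by
    intro v c hc
    by_contra hne
    apply hcon
    refine ⟨v, c.mapLe hle, ?_, ?_, ?_⟩
    · exact hc.mapLe hle
    · rw [SimpleGraph.Walk.edges_mapLe_eq_edges]
      exact zne hne
    · intro e he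
      rw [SimpleGraph.Walk.edges_mapLe_eq_edges] at he
      exact hedge c e he)
  -- the sum over the darts
  have h1 : ∑ d ∈ Finset.univ.filter (fun d : G.Dart => d.edge ∈ H), ψ d.fst = ∑ e ∈ H, σ e := by
    rw [← Finset.sum_fiberwise_of_maps_to (t := H) (g := fun d : G.Dart => d.edge)
      (fun d hd => (Finset.mem_filter.1 hd).2)]
    refine Finset.sum_congr rfl fun e he => ?_
    have hG := hH e he
    induction e with
    | h x y =>
      rw [SimpleGraph.mem_edgeSet] at hG
      set d0 : G.Dart := ⟨(x, y), hG⟩ with hd0
      have hf : ((Finset.univ.filter (fun d : G.Dart => d.edge ∈ H)).filter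
          (fun d => d.edge = s(x, y))) = {d0, d0.symm} := by
        ext d
        simp only [Finset.mem_filter, Finset.mem_univ, true_and, Finset.mem_insert,
          Finset.mem_singleton]
        have h2 : d.edge = s(x, y) ↔ d = d0 ∨ d = d0.symm := by
          have h3 : (s(x, y) : Sym2 V) = d0.edge := rfl
          rw [h3]
          exact SimpleGraph.dart_edge_eq_iff d d0
        constructor
        · rintro ⟨-, h⟩
          exact h2.1 h
        · intro h
          have h4 := h2.2 h
          exact ⟨by rw [h4]; exact he, h4⟩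
      rw [hf, Finset.sum_pair (SimpleGraph.Dart.symm_ne d0).symm]
      have h5 := hψ x y ⟨hG, he⟩
      have h6 : d0.symm.fst = y := rfl
      have h7 : d0.fst = x := rfl
      rw [h6, h7, h5, ← add_assoc, zz, zero_add]
  have h2 : ∑ d ∈ Finset.univ.filter (fun d : G.Dart => d.edge ∈ H), ψ d.fst = 0 := by
    rw [Finset.sum_filter, ← Finset.sum_fiberwise Finset.univ (fun d : G.Dart => d.fst)]
    refine Finset.sum_eq_zero fun v _ => ?_
    have h3 := hev v
    calc ∑ d ∈ Finset.univ.filter (fun d : G.Dart => d.fst = v),
        (if d.edge ∈ H then ψ d.fst else 0)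
        = ∑ d ∈ Finset.univ.filter (fun d : G.Dart => d.fst = v),
          ψ v * (if d.edge ∈ H then (1 : ZMod 2) else 0) := by
          refine Finset.sum_congr rfl fun d hd => ?_
          rw [(Finset.mem_filter.1 hd).2]
          split_ifs <;> simp
      _ = ψ v * 0 := by rw [← Finset.mul_sum, h3]
      _ = 0 := mul_zero _
  rw [h2, hsum] at h1
  exact zero_ne_one h1

end Pool.Agent.Helper81.NF
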